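import Pool.Agent.H66.BP.Targets

/-! # MP_d8fe2e_gt: module DIFF (helper4) -/

open MeasureTheory Set Filter Topology Metric
open scoped Real ENNReal NNReal ComplexConjugate ContDiff

namespace Pool.Agent.H4.BP

open Pool.Agent.H66.BP

/-- the exponential character -/
noncomputable def ch (z : ℂ × ℂ) (y : E) : ℂ :=
  Complex.exp (z.1 * ((y 0 : ℝ) : ℂ) + z.2 * ((y 1 : ℝ) : ℂ))

lemma ch_cont (z : ℂ × ℂ) : Continuous (ch z) := by
  unfold ch
  have h0 : Continuous fun y : E => y 0 := (EuclideanSpace.proj (0 : Fin 2)).continuous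
  have h1 : Continuous fun y : E => y 1 := (EuclideanSpace.proj (1 : Fin 2)).continuous
  fun_prop

lemma ch_sub (z : ℂ × ℂ) (x y : E) : ch z (x - y) = ch z x * ch (-z) y := by
  unfold ch
  rw [← Complex.exp_add]
  congr 1
  simp only [PiLp.sub_apply, Prod.fst_neg, Prod.snd_neg]
  push_cast
  ring

lemma law_char (hBAS : T_BAS) (K : Set E) (hK : IsBody K) (z : ℂ × ℂ) :
    FK K z * FK K (-z) = (FK K 0) ^ 2 * ∫ x, ch z x ∂(diffLaw K) := by
  obtain ⟨-, hpos, him, hmass, -, -⟩ := hBAS K hK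
  set p := (FK K 0).re with hp
  have hp0 : FK K 0 = (p : ℂ) := by
    apply Complex.ext
    · simp [hp]
    · simpa using him
  have hfin : IsFiniteMeasure (bdm K) := ⟨by rw [hmass]; exact ENNReal.ofReal_lt_top⟩
  have hc : (bdm K Set.univ)⁻¹ ≠ ⊤ := by
    rw [hmass, ENNReal.inv_ne_top]
    exact (ENNReal.ofReal_pos.2 hpos).ne'
  have hfin' : IsFiniteMeasure (unif K) := by
    unfold unif
    exact Measure.smul_finite _ hc
  have hint : ∀ z, ∫ x, ch z x ∂(unif K) = FK K z / p := by
    intro z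
    unfold unif
    rw [integral_smul_measure]
    have h1 : ((bdm K Set.univ)⁻¹).toReal = p⁻¹ := by
      rw [hmass, ENNReal.toReal_inv, ENNReal.toReal_ofReal hpos.le]
    rw [h1]
    unfold FK ch
    rw [Complex.real_smul]
    push_cast
    rw [div_eq_inv_mul]
  have hlaw : ∫ x, ch z x ∂(diffLaw K) = (FK K z / p) * (FK K (-z) / p) := by
    unfold diffLaw
    rw [integral_map (by fun_prop) (ch_cont z).aestronglyMeasurable]
    have h1 : (fun q : E × E => ch z (q.1 - q.2)) = fun q : E × E => ch z q.1 * ch (-z) q.2 := by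
      funext q
      exact ch_sub z q.1 q.2
    rw [h1, integral_prod_mul, hint, hint]
  rw [hlaw, hp0]
  have : (p : ℂ) ≠ 0 := by exact_mod_cast hpos.ne'
  field_simp

theorem diff (hBAS : T_BAS) : T_DIFF := by
  intro K H hK hH hL z
  rw [law_char hBAS K hK z, law_char hBAS H hH z, hL]
  ring

end Pool.Agent.H4.BP
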