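import Pool.Agent.H66.BP.Targets

/-! # MP_d8fe2e_gt: modules NCZ, STEP, DIFF (helper4) -/

open MeasureTheory Set Filter Topology Metric
open scoped Real ENNReal NNReal ComplexConjugate ContDiff

namespace Pool.Agent.H4.BP

open Pool.Agent.H66.BP

lemma interval_conj (f : ℝ → ℂ) (a b : ℝ) :
    ∫ x in a..b, conj (f x) = conj (∫ x in a..b, f x) := by
  simp only [intervalIntegral, integral_conj, map_sub]

lemma exp_conj_one (z₁ z₂ : ℂ) (u v : ℝ) :
    Complex.exp (conj z₁ * (u : ℂ) + conj z₂ * (v : ℂ)) =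
      conj (Complex.exp (z₁ * (u : ℂ) + z₂ * (v : ℂ))) := by
  rw [← Complex.exp_conj, map_add, map_mul, map_mul, Complex.conj_ofReal, Complex.conj_ofReal]

lemma F_conj (S : Strip) (z : ℂ × ℂ) : S.F (conj z.1, conj z.2) = conj (S.F z) := by
  unfold Strip.F
  simp only [exp_conj_one, map_add, ← interval_conj, map_mul, Complex.conj_ofReal]

lemma width_ge (S : Strip) (w : ℝ) {x : ℝ} (hx : x ∈ Icc S.a S.b) :
    S.T x - S.B x ≤ S.hT w - S.gB w := by
  have h1 : S.T x + w * x ≤ S.hT w := by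
    refine le_csSup ?_ ⟨x, hx, rfl⟩
    exact (isCompact_Icc.image_of_continuousOn (S.contT.add (by fun_prop))).bddAbove
  have h2 : S.gB w ≤ S.B x + w * x := by
    refine csInf_le ?_ ⟨x, hx, rfl⟩
    exact (isCompact_Icc.image_of_continuousOn (S.contB.add (by fun_prop))).bddBelow
  linarith

lemma width_pos (S : Strip) : ∃ W₀ > 0, ∀ w, W₀ ≤ S.hT w - S.gB w := by
  have h := S.hab
  refine ⟨S.T ((S.a + S.b) / 2) - S.B ((S.a + S.b) / 2), ?_, fun w => width_ge S w ?_⟩
  · have := S.lt ((S.a + S.b) / 2) ⟨by linarith, by linarith⟩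
    linarith
  · constructor <;> linarith

theorem ncz (hWIN : T_WIN) (hTT : T_TT) : T_NCZ := by
  intro S S' c₁ c₂ w₀ C₀ hc₁ hc₂ hC₀ hW hF hZ
  obtain ⟨C, hC, hwin⟩ := hWIN w₀
  set c := max c₁ c₂ with hc
  have hcpos : 0 < c := lt_max_of_lt_left hc₁
  refine ⟨20 * (c * C), by positivity, fun Λ hΛ => ?_⟩
  obtain ⟨t₁, ht₁, h₁⟩ := hwin S C₀ Λ hC₀ hΛ
  obtain ⟨t₂, ht₂, h₂⟩ := hwin S' C₀ Λ hC₀ hΛ
  obtain ⟨W₀, hW₀, hWge⟩ := width_pos S
  have hΛpos : 0 < Λ := by linarith
  refine ⟨max (max t₁ t₂) (2 * π * Λ ^ 2 / W₀), fun τ hτ w δ hw hδ hδ' m1 m2 m3 m4 hamp => ?_⟩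
  have hτ1 : t₁ ≤ τ := (le_max_left _ _).trans ((le_max_left _ _).trans hτ)
  have hτ2 : t₂ ≤ τ := (le_max_right _ _).trans ((le_max_left _ _).trans hτ)
  have hτ3 : 2 * π * Λ ^ 2 / W₀ ≤ τ := (le_max_right _ _).trans hτ
  have hτpos : 0 < τ := by linarith
  have H1 := h₁ τ w δ hτ1 hw hδ hδ' m1 m2
  have H2 := h₂ τ w δ hτ2 hw hδ hδ' m3 m4
  set W := S.hT w - S.gB w with hWdef
  have hW' : S'.hT w - S'.gB w = W := (hW w).symm
  rw [hW'] at H2
  set e := c * C / (τ * δ) with he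
  have hepos : 0 < e := by positivity
  have hce1 : c₁ * (C / (τ * δ)) ≤ e := by
    rw [he, mul_div_assoc]
    exact mul_le_mul_of_nonneg_right (le_max_left _ _) (by positivity)
  have hce2 : c₂ * (C / (τ * δ)) ≤ e := by
    rw [he, mul_div_assoc]
    exact mul_le_mul_of_nonneg_right (le_max_right _ _) (by positivity)
  set L := τ / Λ ^ 2 with hL
  have hLW : 2 * π ≤ L * W := by
    have h1 : 2 * π * Λ ^ 2 ≤ τ * W₀ := (div_le_iff₀ hW₀).1 hτ3
    have h2 : τ * W₀ ≤ τ * W := mul_le_mul_of_nonneg_left (hWge w) hτpos.le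
    rw [hL, div_mul_eq_mul_div, le_div_iff₀ (by positivity)]
    linarith
  have hrange : τ + L = (1 + 1 / Λ ^ 2) * τ := by
    rw [hL]; ring
  -- the comparison on the imaginary axis
  have hcomp : ∀ x ∈ Icc τ (τ + L),
      |‖(c₁ : ℂ) * S.aT w₀ τ w + Complex.exp (-(Complex.I * x * W)) * (c₁ * S.bB w₀ τ w)‖ -
       ‖(c₂ : ℂ) * S'.aT w₀ τ w + Complex.exp (-(Complex.I * x * W)) * (c₂ * S'.bB w₀ τ w)‖|
        ≤ 2 * e := by
    intro x hx
    have hxpos : 0 < x := hτpos.trans_le hx.1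
    have hre : ((Complex.I * x : ℂ)).re = 0 := by simp
    have him : ((Complex.I * x : ℂ)).im = x := by simp
    have hlog : 0 ≤ C₀ * Real.log (2 + x) :=
      mul_nonneg hC₀.le (Real.log_nonneg (by linarith))
    have A1 := (H1 (Complex.I * x) (by rw [him]; exact hx.1)
      (by rw [him, ← hrange]; exact hx.2) (by rw [hre, him, abs_zero]; exact hlog)).1 hre.ge
    have A2 := (H2 (Complex.I * x) (by rw [him]; exact hx.1)
      (by rw [him, ← hrange]; exact hx.2) (by rw [hre, him, abs_zero]; exact hlog)).1 hre.ge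
    have hn : ∀ r : ℝ, ‖Complex.exp (-(Complex.I * x * (r : ℂ)))‖ = 1 := by
      intro r
      rw [Complex.norm_exp]
      simp
    have hconj : ∀ T : Strip, ‖T.F (-((Complex.I * x, Complex.I * x * w) : ℂ × ℂ))‖ =
        ‖T.F (Complex.I * x, Complex.I * x * w)‖ := by
      intro T
      have h1 := F_conj T (Complex.I * x, Complex.I * x * w)
      have h2 : (-((Complex.I * x, Complex.I * x * w) : ℂ × ℂ)) =
          (conj (Complex.I * x), conj (Complex.I * x * w)) := by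
        ext <;> simp
      rw [h2, h1, RCLike.norm_conj]
    have hnorm : c₁ * ‖S.F (Complex.I * x, Complex.I * x * w)‖ =
        c₂ * ‖S'.F (Complex.I * x, Complex.I * x * w)‖ := by
      have h1 := congrArg norm (hF (Complex.I * x, Complex.I * x * w))
      simp only [norm_mul, hconj, Complex.norm_real, Real.norm_eq_abs, abs_of_pos hc₁,
        abs_of_pos hc₂] at h1
      have h2 : 0 ≤ c₁ * ‖S.F (Complex.I * x, Complex.I * x * w)‖ := by positivity
      have h3 : 0 ≤ c₂ * ‖S'.F (Complex.I * x, Complex.I * x * w)‖ := by positivity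
      nlinarith [sq_nonneg (c₁ * ‖S.F (Complex.I * x, Complex.I * x * w)‖ -
        c₂ * ‖S'.F (Complex.I * x, Complex.I * x * w)‖), mul_self_eq_mul_self_iff.1 h1]
    have B1 : |‖S.F (Complex.I * x, Complex.I * x * w)‖ -
        ‖S.aT w₀ τ w + Complex.exp (-(Complex.I * x * W)) * S.bB w₀ τ w‖| ≤ C / (τ * δ) := by
      refine (le_trans ?_ A1)
      have h1 := abs_norm_sub_norm_le (Complex.exp (-(Complex.I * x * S.hT w)) *
        S.F (Complex.I * x, Complex.I * x * w))
        (S.aT w₀ τ w + Complex.exp (-(Complex.I * x * W)) * S.bB w₀ τ w)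
      rw [norm_mul, hn, one_mul] at h1
      exact h1
    have B2 : |‖S'.F (Complex.I * x, Complex.I * x * w)‖ -
        ‖S'.aT w₀ τ w + Complex.exp (-(Complex.I * x * W)) * S'.bB w₀ τ w‖| ≤ C / (τ * δ) := by
      refine (le_trans ?_ A2)
      have h1 := abs_norm_sub_norm_le (Complex.exp (-(Complex.I * x * S'.hT w)) *
        S'.F (Complex.I * x, Complex.I * x * w))
        (S'.aT w₀ τ w + Complex.exp (-(Complex.I * x * W)) * S'.bB w₀ τ w)
      rw [norm_mul, hn, one_mul] at h1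
      exact h1
    have e1 : ‖(c₁ : ℂ) * S.aT w₀ τ w + Complex.exp (-(Complex.I * x * W)) *
        (c₁ * S.bB w₀ τ w)‖ = c₁ * ‖S.aT w₀ τ w + Complex.exp (-(Complex.I * x * W)) *
        S.bB w₀ τ w‖ := by
      have : (c₁ : ℂ) * S.aT w₀ τ w + Complex.exp (-(Complex.I * x * W)) * (c₁ * S.bB w₀ τ w) =
          (c₁ : ℂ) * (S.aT w₀ τ w + Complex.exp (-(Complex.I * x * W)) * S.bB w₀ τ w) := by ring
      rw [this, norm_mul, Complex.norm_real, Real.norm_eq_abs, abs_of_pos hc₁]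
    have e2 : ‖(c₂ : ℂ) * S'.aT w₀ τ w + Complex.exp (-(Complex.I * x * W)) *
        (c₂ * S'.bB w₀ τ w)‖ = c₂ * ‖S'.aT w₀ τ w + Complex.exp (-(Complex.I * x * W)) *
        S'.bB w₀ τ w‖ := by
      have : (c₂ : ℂ) * S'.aT w₀ τ w + Complex.exp (-(Complex.I * x * W)) *
          (c₂ * S'.bB w₀ τ w) =
          (c₂ : ℂ) * (S'.aT w₀ τ w + Complex.exp (-(Complex.I * x * W)) * S'.bB w₀ τ w) := by
        ring
      rw [this, norm_mul, Complex.norm_real, Real.norm_eq_abs, abs_of_pos hc₂]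
    rw [e1, e2]
    rw [abs_le] at B1 B2 ⊢
    have i1 := mul_le_mul_of_nonneg_left B1.1 hc₁.le
    have i2 := mul_le_mul_of_nonneg_left B1.2 hc₁.le
    have i3 := mul_le_mul_of_nonneg_left B2.1 hc₂.le
    have i4 := mul_le_mul_of_nonneg_left B2.2 hc₂.le
    constructor <;> linarith
  have hWpos : 0 < W := hW₀.trans_le (hWge w)
  have hamp' : ‖(c₂ : ℂ) * S'.aT w₀ τ w‖ + 20 * e ≤ ‖(c₁ : ℂ) * S.aT w₀ τ w‖ := by
    rw [norm_mul, norm_mul, Complex.norm_real, Complex.norm_real, Real.norm_eq_abs,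
      Real.norm_eq_abs, abs_of_pos hc₁, abs_of_pos hc₂]
    have : 20 * (c * C) / (τ * δ) = 20 * e := by rw [he]; ring
    rw [this] at hamp
    exact hamp
  obtain ⟨K1, K2⟩ := hTT _ _ _ _ W τ e L hWpos hLW hepos hcomp hamp'
  -- no common zero with positive imaginary part
  have key : ∀ l : ℂ, τ ≤ l.im → l.im ≤ (1 + 1 / Λ ^ 2) * τ → S.F (l, l * w) = 0 →
      S'.F (l, l * w) = 0 → False := by
    intro l hl1 hl2 hz hz'
    have hre := hZ w hw l (Or.inl hz)
    rw [abs_of_pos (hτpos.trans_le hl1)] at hre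
    rcases le_total 0 l.re with h0 | h0
    · have A := (H1 l hl1 hl2 hre).1 h0
      rw [hz, mul_zero, zero_sub, norm_neg] at A
      have hE : ‖Complex.exp (-(l * (W : ℂ)))‖ ≤ 1 := by
        rw [Complex.norm_exp]
        have : (-(l * (W : ℂ))).re = -(l.re * W) := by simp
        rw [this]
        exact Real.exp_le_one_iff.2 (by nlinarith)
      have h1 : ‖S.aT w₀ τ w‖ ≤ C / (τ * δ) + ‖S.bB w₀ τ w‖ := by
        have h2 : S.aT w₀ τ w = (S.aT w₀ τ w + Complex.exp (-(l * (W : ℂ))) * S.bB w₀ τ w) -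
          Complex.exp (-(l * (W : ℂ))) * S.bB w₀ τ w := by ring
        calc ‖S.aT w₀ τ w‖ ≤ ‖S.aT w₀ τ w + Complex.exp (-(l * (W : ℂ))) * S.bB w₀ τ w‖ +
              ‖Complex.exp (-(l * (W : ℂ))) * S.bB w₀ τ w‖ := by
              conv_lhs => rw [h2]
              exact norm_sub_le _ _
          _ ≤ _ := by
              refine add_le_add A ?_
              rw [norm_mul]
              exact mul_le_of_le_one_left (norm_nonneg _) hE
      rw [norm_mul, norm_mul, Complex.norm_real, Real.norm_eq_abs, abs_of_pos hc₁] at K1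
      have h3 := mul_le_mul_of_nonneg_left h1 hc₁.le
      nlinarith
    · have A := (H2 l hl1 hl2 hre).2 h0
      rw [hz', mul_zero, zero_sub, norm_neg] at A
      have hE : ‖Complex.exp (l * (W : ℂ))‖ ≤ 1 := by
        rw [Complex.norm_exp]
        have : (l * (W : ℂ)).re = l.re * W := by simp
        rw [this]
        exact Real.exp_le_one_iff.2 (by nlinarith)
      have h1 : ‖S'.bB w₀ τ w‖ ≤ C / (τ * δ) + ‖S'.aT w₀ τ w‖ := by
        have h2 : S'.bB w₀ τ w = (S'.bB w₀ τ w + Complex.exp (l * (W : ℂ)) * S'.aT w₀ τ w) -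
          Complex.exp (l * (W : ℂ)) * S'.aT w₀ τ w := by ring
        calc ‖S'.bB w₀ τ w‖ ≤ ‖S'.bB w₀ τ w + Complex.exp (l * (W : ℂ)) * S'.aT w₀ τ w‖ +
              ‖Complex.exp (l * (W : ℂ)) * S'.aT w₀ τ w‖ := by
              conv_lhs => rw [h2]
              exact norm_sub_le _ _
          _ ≤ _ := by
              refine add_le_add A ?_
              rw [norm_mul]
              exact mul_le_of_le_one_left (norm_nonneg _) hE
      rw [norm_mul, norm_mul, Complex.norm_real, Real.norm_eq_abs, abs_of_pos hc₂] at K2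
      have h3 := mul_le_mul_of_nonneg_left h1 hc₂.le
      nlinarith
  intro l hl1 hl2 hzz
  obtain ⟨hz, hz'⟩ := hzz
  rcases le_total 0 l.im with h0 | h0
  · rw [abs_of_nonneg h0] at hl1 hl2
    exact key l hl1 hl2 hz hz'
  · rw [abs_of_nonpos h0] at hl1 hl2
    have hco : ∀ T : Strip, T.F (l, l * w) = 0 → T.F (conj l, conj l * w) = 0 := by
      intro T hT
      have h1 := F_conj T (l, l * w)
      rw [hT, map_zero] at h1
      simpa using h1
    exact key (conj l) (by simpa using hl1) (by simpa using hl2) (hco S hz) (hco S' hz')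

end Pool.Agent.H4.BP
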