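import Pool.Agent.H66.BP.Targets

/-! # MP_d8fe2e_gt: module STEP (helper4) -/

open MeasureTheory Set Filter Topology Metric
open scoped Real ENNReal NNReal ComplexConjugate ContDiff

namespace Pool.Agent.H4.BP

open Pool.Agent.H66.BP

lemma toReal_le_of_le {μ m : Measure ℝ} [IsFiniteMeasure m] (h : μ ≤ m) (s : Set ℝ) {x : ℝ}
    (hx : (m s).toReal ≤ x) : (μ s).toReal ≤ x :=
  (ENNReal.toReal_mono (measure_ne_top m s) (h s)).trans hx

/-- the statement for one sign of the difference of the densities -/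
lemma step_aux (hLW : T_LW) (hNCZ : T_NCZ) (S S' : Strip) (w₀ k κ c₁ c₂ C₀ : ℝ) (hc₁ : 0 < c₁)
    (hc₂ : 0 < c₂) (hC₀ : 0 < C₀) (hμ : S.μT + S.μB = S'.μT + S'.μB)
    (hW : ∀ w, S.hT w - S.gB w = S'.hT w - S'.gB w)
    (hF : ∀ z, (c₁ * S.F z) * (c₁ * S.F (-z)) = (c₂ * S'.F z) * (c₂ * S'.F (-z)))
    (hZ : ∀ w : ℝ, |w - w₀| ≤ 1 / 4 → ∀ l : ℂ, S.F (l, l * w) = 0 ∨ S'.F (l, l * w) = 0 →
      |l.re| ≤ C₀ * Real.log (2 + |l.im|))
    (hD : Dens (S.μT + S.μB) S.μT w₀ k) (hD' : Dens (S.μT + S.μB) S'.μT w₀ κ)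
    (hdbl : Dbl (S.μT + S.μB) w₀) (hlt : c₂ ^ 2 * κ < c₁ ^ 2 * k) :
    ∃ q : ℝ, 1 < q ∧ ∀ η > 0, ∀ᶠ t in atTop, ∃ w : ℝ, |w - w₀| ≤ η ∧
      ∀ l : ℂ, t ≤ ‖l‖ → ‖l‖ ≤ q ^ 2 * t → ¬ (S.F (l, l * w) = 0 ∧ S'.F (l, l * w) = 0) := by
  have hfT : IsFiniteMeasure S.μT := by unfold Strip.μT; infer_instance
  have hfB : IsFiniteMeasure S.μB := by unfold Strip.μB; infer_instance
  set m := S.μT + S.μB with hm
  have hfm : IsFiniteMeasure m := by rw [hm]; infer_instance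
  have i1 : S.μT ≤ m := Measure.le_add_right le_rfl
  have i2 : S.μB ≤ m := Measure.le_add_left le_rfl
  have i3 : S'.μT ≤ m := by rw [hμ]; exact Measure.le_add_right le_rfl
  have i4 : S'.μB ≤ m := by rw [hμ]; exact Measure.le_add_left le_rfl
  obtain ⟨C₃, hC₃, hncz⟩ := hNCZ S S' c₁ c₂ w₀ C₀ hc₁ hc₂ hC₀ hW hF hZ
  obtain ⟨Λ, hΛ, hlw⟩ := hLW S S' m w₀ k κ c₁ c₂ hfm i1 i3 hc₁ hc₂ hD hD' hdbl hlt C₃ hC₃
  obtain ⟨t₁, ht₁⟩ := hncz Λ hΛ
  have hΛpos : 0 < Λ := by linarith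
  set A := 1 + 1 / Λ ^ 2 with hA
  have hA1 : 1 < A := by rw [hA]; have : 0 < 1 / Λ ^ 2 := by positivity
                         linarith
  set B := Real.sqrt A with hB
  have hB1 : 1 < B := by rw [hB]; exact Real.lt_sqrt_of_sq_lt (by simpa using hA1)
  have hBB : B * B = A := Real.mul_self_sqrt (by linarith)
  refine ⟨Real.sqrt B, Real.lt_sqrt_of_sq_lt (by simpa using hB1), fun η hη => ?_⟩
  have hqq : Real.sqrt B ^ 2 = B := Real.sq_sqrt (by linarith)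
  rw [hqq]
  obtain ⟨t₂, ht₂⟩ := hlw (min η (1 / 4)) (lt_min hη (by norm_num))
  have hBpos : 0 < B := by linarith
  -- the logarithm is small
  have hlog : ∀ᶠ t : ℝ in atTop, C₀ * Real.log (2 + B * t) ≤ (1 - 1 / B) * t := by
    have h1 : Tendsto (fun t : ℝ => 2 + B * t) atTop atTop :=
      tendsto_atTop_add_const_left _ _ (tendsto_id.const_mul_atTop hBpos)
    have h2 := Real.isLittleO_log_id_atTop.comp_tendsto h1
    have hpos : 0 < (1 - 1 / B) := by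
      rw [sub_pos, div_lt_one hBpos]; exact hB1
    have h3 := h2.def (c := (1 - 1 / B) / (C₀ * (1 + B))) (by positivity)
    filter_upwards [h3, eventually_ge_atTop (2 : ℝ)] with t h4 h5
    simp only [Function.comp_apply, id_eq] at h4
    have h6 : 0 < 2 + B * t := by positivity
    rw [Real.norm_of_nonneg h6.le, Real.norm_of_nonneg (Real.log_nonneg (by nlinarith))] at h4
    calc C₀ * Real.log (2 + B * t) ≤ C₀ * ((1 - 1 / B) / (C₀ * (1 + B)) * (2 + B * t)) :=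
          mul_le_mul_of_nonneg_left h4 hC₀.le
      _ = (1 - 1 / B) * ((2 + B * t) / (1 + B)) := by field_simp
      _ ≤ (1 - 1 / B) * t := by
          refine mul_le_mul_of_nonneg_left ?_ hpos.le
          rw [div_le_iff₀ (by positivity)]
          nlinarith
  filter_upwards [hlog, eventually_ge_atTop (B * t₁), eventually_ge_atTop (B * t₂),
    eventually_gt_atTop (0 : ℝ)] with t hl h1 h2 h3
  have h4 : t₁ ≤ t / B := by rw [le_div_iff₀ hBpos]; linarith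
  have h5 : t₂ ≤ t / B := by rw [le_div_iff₀ hBpos]; linarith
  obtain ⟨w, δ, hw, hδ, hδ', hm1, hamp⟩ := ht₂ (t / B) h5
  refine ⟨w, hw.trans (min_le_left _ _), fun l hl1 hl2 hzz => ?_⟩
  have hw4 : |w - w₀| ≤ 1 / 4 := hw.trans (min_le_right _ _)
  have hre := hZ w hw4 l (Or.inl hzz.1)
  have him : |l.im| ≤ B * t := (Complex.abs_im_le_norm l).trans hl2
  have h6 : |l.re| ≤ (1 - 1 / B) * t := by
    refine (hre.trans (mul_le_mul_of_nonneg_left ?_ hC₀.le)).trans hl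
    exact Real.log_le_log (by positivity) (by linarith)
  have h7 : t / B ≤ |l.im| := by
    have := Complex.norm_le_abs_re_add_abs_im l
    have h8 : (1 - 1 / B) * t = t - t / B := by ring
    linarith
  have h8 : |l.im| ≤ A * (t / B) := by
    have : A * (t / B) = B * t := by rw [← hBB]; field_simp
    rw [this]; exact him
  exact ht₁ (t / B) h4 w δ hw4 hδ (hδ'.trans (min_le_right _ _))
    (toReal_le_of_le i1 _ hm1) (toReal_le_of_le i2 _ hm1) (toReal_le_of_le i3 _ hm1)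
    (toReal_le_of_le i4 _ hm1) hamp l h7 h8 hzz

theorem step (hLW : T_LW) (hNCZ : T_NCZ) : T_STEP := by
  intro S S' w₀ k κ c₁ c₂ C₀ hc₁ hc₂ hC₀ hμ hW hF hZ hD hD' hdbl hne
  rcases lt_or_gt_of_ne hne with h | h
  · rw [hμ] at hD hD' hdbl
    obtain ⟨q, hq, h1⟩ := step_aux hLW hNCZ S' S w₀ κ k c₂ c₁ C₀ hc₂ hc₁ hC₀ hμ.symm
      (fun w => (hW w).symm) (fun z => (hF z).symm) (fun w hw l hl => hZ w hw l hl.symm)
      hD' hD hdbl h
    refine ⟨q, hq, fun η hη => ?_⟩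
    filter_upwards [h1 η hη] with t ht
    obtain ⟨w, hw, h2⟩ := ht
    exact ⟨w, hw, fun l hl1 hl2 h3 => h2 l hl1 hl2 h3.symm⟩
  · exact step_aux hLW hNCZ S S' w₀ k κ c₁ c₂ C₀ hc₁ hc₂ hC₀ hμ hW hF hZ hD hD' hdbl h

end Pool.Agent.H4.BP
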